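import Pool.Agent.H87.GP.Fam

/-!
# Two-state generalized automata: rotation codings, exponential sign patterns, words with three runs

`GPFA2` is the structure of generalized probabilistic automata with two states over the letters `false` (`0`) and
`true` (`1`): a row vector, two real matrices, a column vector; `M.rho w` is the value of the word `w`, and `M.Wit x`
says that `M.rho z < M.rho x` for every other word `z` of the same length, that is `gap_M(x) > 0`.
-/

set_option autoImplicit false

namespace Pool.Agent.Results.MP_7880bd_lc.SignPatterns

open Pool.Agent.H87.GP

/-- Let `x` be a binary word of length `n` (letters `x[0], ..., x[n - 1]`) such that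
* for some reals `A, B, θ, φ` the letter `x[k]` is `1` if `A + B cos (θ k + φ) > 0` and `0` if it is `< 0`, and one of
  these holds for each `k < n` (codings of rotations of the circle by an arc), or
* for some reals `A, B, C, r` the same holds for `A + B r ^ k + C r ^ (n - 1 - k)`, or
* `x` has at most three runs.
Then there is a two-state automaton `M` with `gap_M(x) > 0`. -/
theorem result (x : List Bool)
    (h : (∃ A B θ φ : ℝ, ∀ k (hk : k < x.length),
        if x[k] then 0 < A + B * Real.cos (θ * k + φ) else A + B * Real.cos (θ * k + φ) < 0) ∨
      (∃ A B C r : ℝ, ∀ k (hk : k < x.length),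
        if x[k] then 0 < A + B * r ^ k + C * r ^ (x.length - 1 - k)
        else A + B * r ^ k + C * r ^ (x.length - 1 - k) < 0) ∨
      ∃ (a b c : ℕ) (i : Bool), x = List.replicate a i ++ List.replicate b (!i) ++ List.replicate c i) :
    ∃ M : GPFA2, M.Wit x := by
  rcases h with ⟨A, B, θ, φ, h⟩ | ⟨A, B, C, r, h⟩ | ⟨a, b, c, i, rfl⟩
  · exact rotation x A B θ φ h
  · exact exponential x A B C r h
  · exact three_runs a b c i

end Pool.Agent.Results.MP_7880bd_lc.SignPatterns
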